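import Mathlib
import Pool.Agent.ENC.Enc

/-!
# The common value of the sharp constants of (S) and (I) to five digits
-/

set_option autoImplicit false

open MeasureTheory Set MPdbfb19

namespace Pool.Agent.Results.MP_dbfb19_an.Enclosure

/-- Both least admissible constants exist, they are equal, and their common value is
`1.5463...`; in particular it is smaller than `√π = 1.7724...`. -/
theorem result : ∃ c : ℝ,
    IsLeast {C : ℝ | ValidS C} c ∧ IsLeast {C : ℝ | ValidI C} c ∧
    1.5463 < c ∧ c < 1.5464 ∧ 1.772 < Real.sqrt Real.pi := by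
  obtain ⟨c, hc⟩ := exists_least
  have hset : {C : ℝ | ValidS C} = {C : ℝ | ValidI C} := by
    ext C
    exact validS_iff_validI
  have hlow : 2 / (3 : ℝ) ^ (1 / 4 : ℝ) ≤ c := lower_bound hc.1
  have hc0 : 0 < c := lt_of_lt_of_le (by positivity) hlow
  have hs2 : 1.772 < Real.sqrt Real.pi := by
    apply Real.lt_sqrt_of_sq_lt
    have := Real.pi_gt_d4
    norm_num at this ⊢
    linarith
  refine ⟨c, ?_, hc, ?_, ?_, hs2⟩
  · rw [hset]
    exact hc
  · have := Pool.Agent.ENC.lower' hc hc0
    norm_num at this ⊢
    linarith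
  · have := Pool.Agent.ENC.upper hc hc0
    norm_num at this ⊢
    linarith

end Pool.Agent.Results.MP_dbfb19_an.Enclosure
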