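import Mathlib
import Pool.Agent.MP_dbfb19_an.Ends

/-!
# The common sharp constant as the largest eigenvalue of a nonlinear integral equation
-/

set_option autoImplicit false

open MeasureTheory Set MPdbfb19

namespace Pool.Agent.Results.MP_dbfb19_an.Extremisers

/-- The common value `c` of the two least constants is the largest `μ` for which
`∫_0^∞ u(y)³ (x+y)^{-1/2} dy = μ u(x)` (`x > 0`) has a nonnegative solution with `∫ u⁴ = 1`; it is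
attained in (I) by a pair `f = g`, and never attained in (S). -/
theorem result : ∃ c : ℝ,
    IsLeast {C : ℝ | ValidS C} c ∧ IsLeast {C : ℝ | ValidI C} c ∧
    IsGreatest {μ : ℝ | Eigen μ} c ∧
    (∃ f : ℝ → ℝ, Measurable f ∧ (∀ x, 0 ≤ f x) ∧
      IntegrableOn (fun x => f x ^ (4 / 3 : ℝ)) (Ioi 0) ∧
      ∫ x in Ioi (0 : ℝ), f x ^ (4 / 3 : ℝ) = 1 ∧
      ∫⁻ x in Ioi (0 : ℝ), ∫⁻ y in Ioi (0 : ℝ),
        ENNReal.ofReal (f x * f y * (x + y) ^ (-(1 / 2) : ℝ)) = ENNReal.ofReal c) ∧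
    (∀ a b : ℕ+ → ℝ, (∀ m, 0 ≤ a m) → (∀ n, 0 ≤ b n) →
      Summable (fun m => a m ^ (4 / 3 : ℝ)) → Summable (fun n => b n ^ (4 / 3 : ℝ)) →
      (∃ m, a m ≠ 0) → (∃ n, b n ≠ 0) →
      ∑' (m : ℕ+) (n : ℕ+), ENNReal.ofReal (a m * b n * ((m : ℝ) + (n : ℝ)) ^ (-(1 / 2) : ℝ)) <
        ENNReal.ofReal (c * (∑' m, a m ^ (4 / 3 : ℝ)) ^ (3 / 4 : ℝ) *
          (∑' n, b n ^ (4 / 3 : ℝ)) ^ (3 / 4 : ℝ))) := by
  obtain ⟨c, hc⟩ := exists_least
  have hset : {C : ℝ | ValidS C} = {C : ℝ | ValidI C} := by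
    ext C
    exact validS_iff_validI
  have hc0 : 0 < c := by
    have h1 : (0 : ℝ) < 2 / (3 : ℝ) ^ (1 / 4 : ℝ) := by positivity
    exact h1.trans_le (lower_bound hc.1)
  refine ⟨c, ?_, hc, ⟨eigen_least hc hc0, fun μ hμ => eigen_le hc.1 hc0 hμ⟩,
    attained hc hc0, fun a b ha hb hsa hsb ha1 hb1 =>
      not_attained hc.1 ha hb hsa hsb ha1 hb1⟩
  rw [hset]
  exact hc

end Pool.Agent.Results.MP_dbfb19_an.Extremisers
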