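import Mathlib
import Pool.Agent.ENC.Cls
import Pool.Agent.ENC.DVC
import Pool.Agent.ENC.DL

/-!
# The equality case of the sharp inequality (I): one function up to scaling and dilation
-/

set_option autoImplicit false

open MeasureTheory Set MPdbfb19
open scoped ENNReal

namespace Pool.Agent.Results.MP_dbfb19_an.Uniqueness

/-- There is one positive continuous function `F` on `(0, ∞)`, of norm `1`, with the symmetry
`F(1/x) = x^{3/2} F(x)` and `x^{3/4} F(x)` nondecreasing on `(0, 1]` and nonincreasing on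
`[1, ∞)`, such that equality holds in (I) with the sharp constant, for `f, g` not almost
everywhere zero, if and only if `f = α F(t ·)` and `g = β F(t ·)` almost everywhere, for some
`α, β, t > 0`. -/
theorem result : ∃ (c : ℝ) (F : ℝ → ℝ), IsLeast {C : ℝ | ValidI C} c ∧
    Measurable F ∧ ContinuousOn F (Ioi 0) ∧ (∀ x ∈ Ioi (0 : ℝ), 0 < F x) ∧
    IntegrableOn (fun x => F x ^ (4 / 3 : ℝ)) (Ioi 0) ∧
    ∫ x in Ioi (0 : ℝ), F x ^ (4 / 3 : ℝ) = 1 ∧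
    (∀ x ∈ Ioi (0 : ℝ), F x⁻¹ = x ^ (3 / 2 : ℝ) * F x) ∧
    MonotoneOn (fun x => x ^ (3 / 4 : ℝ) * F x) (Ioc 0 1) ∧
    AntitoneOn (fun x => x ^ (3 / 4 : ℝ) * F x) (Ici 1) ∧
    ∀ f g : ℝ → ℝ, Measurable f → Measurable g → (∀ x, 0 ≤ f x) → (∀ x, 0 ≤ g x) →
      IntegrableOn (fun x => f x ^ (4 / 3 : ℝ)) (Ioi 0) →
      IntegrableOn (fun x => g x ^ (4 / 3 : ℝ)) (Ioi 0) →
      (¬ ∀ᵐ x ∂(volume.restrict (Ioi (0 : ℝ))), f x = 0) →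
      (¬ ∀ᵐ x ∂(volume.restrict (Ioi (0 : ℝ))), g x = 0) →
      (∫⁻ x in Ioi (0 : ℝ), ∫⁻ y in Ioi (0 : ℝ),
          ENNReal.ofReal (f x * g y * (x + y) ^ (-(1 / 2) : ℝ)) =
        ENNReal.ofReal (c * (∫ x in Ioi (0 : ℝ), f x ^ (4 / 3 : ℝ)) ^ (3 / 4 : ℝ) *
          (∫ y in Ioi (0 : ℝ), g y ^ (4 / 3 : ℝ)) ^ (3 / 4 : ℝ)) ↔
      ∃ α β t : ℝ, 0 < α ∧ 0 < β ∧ 0 < t ∧
        (∀ᵐ x ∂(volume.restrict (Ioi (0 : ℝ))), f x = α * F (t * x)) ∧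
        (∀ᵐ x ∂(volume.restrict (Ioi (0 : ℝ))), g x = β * F (t * x))) := by
  obtain ⟨c, hc⟩ := exists_least
  have hlow : 2 / (3 : ℝ) ^ (1 / 4 : ℝ) ≤ c := lower_bound hc.1
  have hc0 : 0 < c := lt_of_lt_of_le (by positivity) hlow
  have hB := BB_of_validI hc0.le hc.1
  obtain ⟨φ, hφ⟩ := Pool.Agent.ENC.exists_ext hc hc0
  obtain ⟨a, ha⟩ := hφ.center hB hc0
  have hcl : (1546 : ℝ) / 1000 ≤ c := by
    have := Pool.Agent.ENC.DL.lower hB hc0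
    norm_num at this ⊢
    linarith
  have hu : ∀ χ : ℝ → ℝ, Pool.Agent.ENC.Ext c χ → ∃ b, ∀ s, χ s = (fun s => φ (a + s)) (b + s) :=
    fun χ hχ => Pool.Agent.ENC.uniq_shift hB hc0
      (fun ψ hψ => Pool.Agent.ENC.DV.uniq hB hc0 hcl ha hψ) hχ
  obtain ⟨p1, p2, p3, p4, p5, p6, p7, p8⟩ := Pool.Agent.ENC.FF_props ha
  exact ⟨c, Pool.Agent.ENC.FF (fun s => φ (a + s)), hc, p1, p2, p3, p4, p5, p6, p7, p8,
    fun f g hf hg hf0 hg0 hfi hgi hfn hgn =>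
      Pool.Agent.ENC.classify hc hc0 ha hu hf hg hf0 hg0 hfi hgi hfn hgn⟩

end Pool.Agent.Results.MP_dbfb19_an.Uniqueness
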